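import Pool.Agent.Y133.Half.PredSys

/-!
# Finitely many members of a family detect all classes on the products with a fixed variety
-/

set_option autoImplicit false

open CategoryTheory AlgebraicGeometry

universe u v

namespace Pool.Agent.J4.H21.TS

open Module
open Pool.Agent.H914 Pool.Agent.H914.VarClass Pool.Agent.H914.VarClass.Obj
  Pool.Agent.H914.WeilCohomology Pool.Agent.Y133.Half

variable {k : Type u} [Field k] {𝒱 : VarClass k} {ops : CycleOps 𝒱}
  {W : WeilCohomology.{u, v} ops} {Z T Y : 𝒱.Obj}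

/-- The class of the composition of two correspondences. -/
noncomputable def cmp (W : WeilCohomology.{u, v} ops) {Z Y T : 𝒱.Obj} (c : W.H (Z.prod Y))
    (d : W.H (Y.prod T)) : W.H (Z.prod T) :=
  W.push (p13 Z Y T) (W.map (p12 Z Y T) c * W.map (p23 Z Y T) d)

/-- The classes on `Z` orthogonal to the classes of the system and killed by its operators to the
members of the list. -/
def kr (S : Sys W) (Z : 𝒱.Obj) (L : List 𝒱.Obj) : Submodule W.K (W.H Z) where
  carrier := {x | (∀ a ∈ S.C Z, W.tr Z (a * x) = 0) ∧ ∀ Y ∈ L, ∀ f ∈ S.Op Z Y, f x = 0}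
  zero_mem' := ⟨fun a _ => by rw [mul_zero, map_zero], fun _ _ f _ => map_zero f⟩
  add_mem' := fun {x y} hx hy => ⟨fun a ha => by
    rw [mul_add, map_add, hx.1 a ha, hy.1 a ha, add_zero], fun Y hY f hf => by
    rw [map_add, hx.2 Y hY f hf, hy.2 Y hY f hf, add_zero]⟩
  smul_mem' := fun r x hx => ⟨fun a ha => by
    rw [mul_smul_comm, map_smul, hx.1 a ha, smul_zero], fun Y hY f hf => by
    rw [map_smul, hx.2 Y hY f hf, smul_zero]⟩

/-- The external products and the compositions through the members of the list. -/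
def gens (S : Sys W) (Z T : 𝒱.Obj) (L : List 𝒱.Obj) : Set (W.H (Z.prod T)) :=
  {c | (∃ a ∈ S.C Z, ∃ b ∈ S.C T, c = xp W a b) ∨
    ∃ Y ∈ L, ∃ a ∈ S.C (Z.prod Y), ∃ b ∈ S.C (Y.prod T), c = cmp W a b}

variable {S : Sys W}

lemma gens_mem {L : List 𝒱.Obj} {c : W.H (Z.prod T)} (hc : c ∈ gens S Z T L) :
    c ∈ S.C (Z.prod T) := by
  rcases hc with ⟨a, ha, b, hb, rfl⟩ | ⟨Y, -, a, ha, b, hb, rfl⟩
  · exact S.mul (S.map _ ha) (S.map _ hb)
  · exact Sys.comp_mem ha hb

/-- The functionals on the classes are given by classes. -/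
lemma exists_rep (hS : Sys.Nondeg S Z) (φ : S.C Z →ₗ[W.K] W.K) :
    ∃ g ∈ S.C Z, ∀ c : S.C Z, φ c = W.tr Z ((c : W.H Z) * g) := by
  have hinj : Function.Injective (S.F Z 1) := by
    rw [← LinearMap.ker_eq_bot, LinearMap.ker_eq_bot']
    intro c hc
    apply Subtype.ext
    refine hS c c.2 fun y hy => ?_
    exact congrArg (fun f : S.C Z →ₗ[W.K] W.K => f ⟨y, hy⟩) hc
  have hsurj : Function.Surjective (S.F Z 1) :=
    (LinearMap.injective_iff_surjective_of_finrank_eq_finrank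
      (Subspace.dual_finrank_eq).symm).1 hinj
  obtain ⟨g, hg⟩ := hsurj φ
  refine ⟨g, g.2, fun c => ?_⟩
  rw [← hg, Sys.F_apply, PH.even_comm (S.even c.2)]
  rfl

/-- An operator whose compositions with all operators in the other direction have trace zero. -/
lemma op_zero (hS : Sys.Nondeg S (T.prod Y)) {u : W.H T →ₗ[W.K] W.H Y} (hu : u ∈ S.Op T Y)
    (h : ∀ w ∈ S.Op Y T, LinearMap.trace W.K (W.H Y) (par (W.isInternal Y) ∘ₗ u ∘ₗ w) = 0) :
    u = 0 := by
  obtain ⟨c, hc, rfl⟩ := Sys.mem_Op.1 hu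
  have h1 : c = 0 := by
    refine hS c hc fun y hy => ?_
    have h2 := h _ (Sys.Op.corr (S.map (swap Y T) hy))
    rw [trace_corr_corr, swap_swap] at h2
    exact h2
  rw [h1, corr_zero]

variable (hS : ∀ X : 𝒱.Obj, Sys.Nondeg S X)

include hS in
/-- An operator from `T` to `Z` orthogonal to the generators has values in `kr`. -/
lemma val_kr {L : List 𝒱.Obj} {g : W.H (Z.prod T)} (hg : g ∈ S.C (Z.prod T))
    (h : ∀ b ∈ gens S Z T L, W.tr (Z.prod T) (b * g) = 0) (x : W.H T) :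
    W.corr (W.map (swap T Z) g) x ∈ kr S Z L := by
  have hv : W.corr (W.map (swap T Z) g) ∈ S.Op T Z := Sys.Op.corr (S.map _ hg)
  constructor
  · intro a ha
    have hb : W.corr g a ∈ S.C T := 
      Sys.Op.apply (T := S) (fun _ => le_rfl) (Sys.Op.corr hg) ha
    have h0 : W.corr g a = 0 := by
      refine hS T _ hb fun b hb => ?_
      rw [corr_apply, W.tr_push, mul_assoc, PH.even_comm (S.even hg)]
      exact h _ (Or.inl ⟨a, ha, b, hb, rfl⟩)
    rw [PH.even_comm (S.even ha), tr_corr' (S.even (S.map _ hg)), swap_swap, h0, mul_zero,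
      map_zero]
  · intro Y hY f hf
    have h1 : f ∘ₗ W.corr (W.map (swap T Z) g) = 0 := by
      refine op_zero (hS _) (Sys.Op.comp hf hv) fun w hw => ?_
      obtain ⟨d, hd, rfl⟩ := Sys.mem_Op.1 hw
      obtain ⟨c, hc, rfl⟩ := Sys.mem_Op.1 hf
      have h2 : W.corr (cmp W c d) = W.corr d ∘ₗ W.corr c := corr_comp' c (S.even hd)
      have h3 := trace_corr_corr (W := W) (N := Z) (M := T) (cmp W c d) (W.map (swap T Z) g)
      rw [swap_swap, h _ (Or.inr ⟨Y, hY, c, hc, d, hd, rfl⟩), h2] at h3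
      -- cyclicity of the trace
      have h4 : par (W.isInternal Y) ∘ₗ (W.corr c ∘ₗ W.corr (W.map (swap T Z) g)) ∘ₗ W.corr d =
          (par (W.isInternal Y) ∘ₗ W.corr c ∘ₗ W.corr (W.map (swap T Z) g)) ∘ₗ W.corr d := rfl
      rw [h4, LinearMap.trace_comp_comm', ← LinearMap.comp_assoc,
        ← (Sys.Op.ev hw).par_comm]
      exact h3
    exact congrArg (fun φ : W.H T →ₗ[W.K] W.H Y => φ x) h1

include hS in
/-- **If all operators from `Z` to `T` kill `kr`, they are generated.** -/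
theorem span_gens {L : List 𝒱.Obj} (h : ∀ f ∈ S.Op Z T, ∀ x ∈ kr S Z L, f x = 0) :
    S.C (Z.prod T) ≤ Submodule.span W.K (gens S Z T L) := by
  intro c hc
  by_contra hcon
  let B : Submodule W.K (S.C (Z.prod T)) :=
    (Submodule.span W.K (gens S Z T L)).comap (S.C (Z.prod T)).subtype
  have hcB : (⟨c, hc⟩ : S.C (Z.prod T)) ∉ B := hcon
  obtain ⟨φ, hφ, hφB⟩ := Submodule.exists_dual_map_eq_bot_of_notMem hcB inferInstance
  obtain ⟨g, hg, hφg⟩ := exists_rep (hS (Z.prod T)) φ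
  have h1 : ∀ b ∈ gens S Z T L, W.tr (Z.prod T) (b * g) = 0 := by
    intro b hb
    have h2 : φ ⟨b, gens_mem hb⟩ ∈ B.map φ :=
      Submodule.mem_map_of_mem (Submodule.subset_span hb)
    rw [hφB, Submodule.mem_bot, hφg] at h2
    exact h2
  have h2 : W.corr c ∘ₗ W.corr (W.map (swap T Z) g) = 0 :=
    LinearMap.ext fun x => h _ (Sys.Op.corr hc) _ (val_kr hS hg h1 x)
  have h3 := trace_corr_corr (W := W) (N := Z) (M := T) c (W.map (swap T Z) g)
  rw [swap_swap, h2, LinearMap.comp_zero, map_zero] at h3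
  apply hφ
  rw [hφg]
  exact h3.symm

/-- One more member. -/
lemma kr_cons_le (Y : 𝒱.Obj) (L : List 𝒱.Obj) : kr S Z (Y :: L) ≤ kr S Z L :=
  fun _ hx => ⟨hx.1, fun Y' hY' => hx.2 Y' (List.mem_cons_of_mem _ hY')⟩

/-- **The choice of the members.** -/
theorem exists_list (S : Sys W) (Z : 𝒱.Obj) (F : Set 𝒱.Obj) : ∃ L : List 𝒱.Obj,
    (∀ Y ∈ L, Y ∈ F) ∧ L.length ≤ finrank W.K (kr S Z []) ∧
      ∀ T ∈ F, ∀ f ∈ S.Op Z T, ∀ x ∈ kr S Z L, f x = 0 := by
  classical
  have key : ∀ n : ℕ, ∀ L : List 𝒱.Obj, (∀ Y ∈ L, Y ∈ F) →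
      L.length + finrank W.K (kr S Z L) ≤ finrank W.K (kr S Z []) →
      finrank W.K (kr S Z L) = n → ∃ L : List 𝒱.Obj,
    (∀ Y ∈ L, Y ∈ F) ∧ L.length ≤ finrank W.K (kr S Z []) ∧
      ∀ T ∈ F, ∀ f ∈ S.Op Z T, ∀ x ∈ kr S Z L, f x = 0 := by
    intro n
    induction n using Nat.strong_induction_on with
    | _ n ih =>
      intro L hL hlen hn
      by_cases h : ∀ T ∈ F, ∀ f ∈ S.Op Z T, ∀ x ∈ kr S Z L, f x = 0
      · exact ⟨L, hL, by omega, h⟩
      · push Not at h
        obtain ⟨T, hT, f, hf, x, hx, hne⟩ := h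
        have hlt : kr S Z (T :: L) < kr S Z L := by
          refine lt_of_le_of_ne (kr_cons_le T L) fun h => hne ?_
          rw [← h] at hx
          exact hx.2 T List.mem_cons_self f hf
        have h2 := Submodule.finrank_lt_finrank_of_lt hlt
        refine ih _ (hn ▸ h2) (T :: L) ?_ ?_ rfl
        · intro Y hY
          rcases List.mem_cons.1 hY with rfl | h
          · exact hT
          · exact hL Y h
        · rw [List.length_cons]
          omega
  exact key _ [] (fun Y hY => absurd hY List.not_mem_nil) (by simp) rfl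

/-- A class of trace one. -/
lemma exists_tr_one (W : WeilCohomology.{u, v} ops) (Y : 𝒱.Obj) [Nontrivial (W.H Y)] :
    ∃ b ∈ W.gr Y (2 * Y.dim), W.tr Y b = 1 := by
  obtain ⟨b, hb⟩ : ∃ b : W.H Y, W.tr Y b ≠ 0 := by
    by_contra hcon
    push Not at hcon
    refine one_ne_zero (W.nondeg (a := (1 : W.H Y)) fun b => ?_)
    rw [one_mul]
    exact hcon b
  have h1 : W.tr Y b = W.tr Y (H914.proj (W.isInternal Y) (2 * Y.dim) b) := by
    refine gr_induction (W.isInternal Y) (p := fun b => W.tr Y b =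
      W.tr Y (H914.proj (W.isInternal Y) (2 * Y.dim) b)) ?_ ?_ b
    · intro i a ha
      by_cases hi : i = 2 * Y.dim
      · subst hi
        rw [proj_same _ ha]
      · rw [proj_ne _ ha hi, map_zero]
        exact W.tr_eq_zero ha hi
    · intro a b ha hb
      rw [map_add, map_add, map_add, ha, hb]
  refine ⟨(W.tr Y b)⁻¹ • H914.proj (W.isInternal Y) (2 * Y.dim) b,
    Submodule.smul_mem _ _ (proj_mem _ _ _), ?_⟩
  rw [map_smul, ← h1, smul_eq_mul, inv_mul_cancel₀ hb]

lemma map_fst_inj (Y T : 𝒱.Obj) [Nontrivial (W.H T)] {y : W.H Y}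
    (h : W.map (fst Y T) y = 0) : y = 0 := by
  obtain ⟨b, hb, hb1⟩ := exists_tr_one W T
  have h1 : W.push (fst Y T) (xp W y b) = W.tr T b • y :=
    push_fst y b (PH.of' (Nat.mul_mod_right 2 _) hb)
  rw [xp, h, zero_mul, map_zero, hb1, one_smul] at h1
  exact h1.symm

instance nontrivial_prod (Y T : 𝒱.Obj) [Nontrivial (W.H Y)] [Nontrivial (W.H T)] :
    Nontrivial (W.H (Y.prod T)) := by
  refine ⟨⟨1, 0, fun h => ?_⟩⟩
  have h1 : W.map (fst Y T) (1 : W.H Y) = 0 := by rw [map_one]; exact h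
  exact one_ne_zero (map_fst_inj Y T h1)

/-- Base change for the projections. -/
lemma base_change' {A B : 𝒱.Obj} (g : A ⟶ B) (u : W.H (Z.prod B)) :
    W.map g (W.push (snd Z B) u) =
      W.push (snd Z A) (W.map (Obj.lift (fst Z A) (snd Z A ≫ g)) u) := by
  refine W.kunneth_induction (p := fun u => W.map g (W.push (snd Z B) u) =
      W.push (snd Z A) (W.map (Obj.lift (fst Z A) (snd Z A ≫ g)) u)) ?_ ?_ u
  · intro a b ha hb
    simp only [map_add, ha, hb]
  · intro i j a _ b _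
    rw [push_snd, map_smul, map_mul (W.map (Obj.lift _ _)), ← W.map_comp, ← W.map_comp,
      Obj.lift_fst, Obj.lift_snd, W.map_comp, push_snd]

/-- The composition of an operator with a pull-back. -/
lemma op_map {A B : 𝒱.Obj} (g : A ⟶ B) {f : W.H Z →ₗ[W.K] W.H B} (hf : f ∈ S.Op Z B) :
    (W.map g).toLinearMap ∘ₗ f ∈ S.Op Z A := by
  obtain ⟨c, hc, rfl⟩ := Sys.mem_Op.1 hf
  have h : (W.map g).toLinearMap ∘ₗ W.corr c =
      W.corr (W.map (Obj.lift (fst Z A) (snd Z A ≫ g)) c) := by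
    refine LinearMap.ext fun x => ?_
    change W.map g (W.corr c x) = _
    rw [corr_apply, base_change', corr_apply, map_mul, ← W.map_comp, Obj.lift_fst]
  rw [h]
  exact Sys.Op.corr (S.map _ hc)

lemma map_snd_inj (Y T : 𝒱.Obj) [Nontrivial (W.H Y)] {y : W.H T}
    (h : W.map (snd Y T) y = 0) : y = 0 := by
  apply map_fst_inj T Y
  rw [← swap_snd (X := T) (Y := Y), W.map_comp, h, map_zero]

/-- **A single member for a family closed under products.** -/
theorem exists_single (S : Sys W) (Z : 𝒱.Obj) (F : Set 𝒱.Obj) (hne : F.Nonempty)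
    (hF : ∀ A ∈ F, ∀ B ∈ F, A.prod B ∈ F) :
    ∃ Y ∈ F, ∀ T ∈ F, ∀ f ∈ S.Op Z T, ∀ x ∈ kr S Z [Y], f x = 0 := by
  classical
  by_cases hnt : ∃ Y ∈ F, Nontrivial (W.H Y)
  · let P : ℕ → Prop := fun n => ∃ Y ∈ F, Nontrivial (W.H Y) ∧ finrank W.K (kr S Z [Y]) = n
    have hP : ∃ n, P n := by
      obtain ⟨Y, hY, h⟩ := hnt
      exact ⟨_, Y, hY, h, rfl⟩
    obtain ⟨Y, hY, hYn, hn⟩ := Nat.find_spec hP
    refine ⟨Y, hY, fun T hT f hf x hx => ?_⟩
    by_cases hTn : Nontrivial (W.H T)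
    · have h1 : kr S Z [Y.prod T] ≤ kr S Z [Y] := by
        intro x hx
        refine ⟨hx.1, fun Y' hY' => ?_⟩
        obtain rfl := List.mem_singleton.1 hY'
        intro f hf
        exact map_fst_inj Y' T (hx.2 _ (List.mem_singleton.2 rfl) _ (op_map (fst Y' T) hf))
      have h2 : kr S Z [Y.prod T] = kr S Z [Y] := by
        refine Submodule.eq_of_le_of_finrank_le h1 ?_
        rw [hn]
        exact Nat.find_min' hP ⟨Y.prod T, hF _ hY _ hT, inferInstance, rfl⟩
      rw [← h2] at hx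
      exact map_snd_inj Y T (hx.2 _ (List.mem_singleton.2 rfl) _ (op_map (snd Y T) hf))
    · rw [not_nontrivial_iff_subsingleton] at hTn
      exact Subsingleton.elim _ _
  · obtain ⟨Y, hY⟩ := hne
    refine ⟨Y, hY, fun T hT f hf x hx => ?_⟩
    have hTn : ¬ Nontrivial (W.H T) := fun h => hnt ⟨T, hT, h⟩
    rw [not_nontrivial_iff_subsingleton] at hTn
    exact Subsingleton.elim _ _

end Pool.Agent.J4.H21.TS
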