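import Pool.Agent.Y121.AHS.Defs

/-!
# Test members of a family of varieties for the absolutely Hodge classes: definitions
-/

set_option autoImplicit false

open CategoryTheory AlgebraicGeometry

universe u

namespace Pool.Agent.J4.H21.TS

section Alg

variable {K A B C E : Type*} [Field K] [Ring A] [Algebra K A] [Ring B] [Algebra K B] [Ring C]
  [Algebra K C] [Ring E] [Algebra K E]

/-- `c` is a linear combination of elements of `S`. -/
def IsComb (K : Type*) {A : Type*} [Field K] [Ring A] [Algebra K A] (S : A → Prop) (c : A) :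
    Prop := c ∈ Submodule.span K {x | S x}

/-- The dimension of the space of the elements `x` with `tr (a x) = 0` for all `a` in `S`. -/
noncomputable def orthDim (tr : A →ₗ[K] K) (S : A → Prop) : ℕ :=
  Module.finrank K (⨅ (a : A) (_ : S a), LinearMap.ker (tr ∘ₗ LinearMap.mulLeft K a) :
    Submodule K A)

/-- The product of the images of `a` and `b`. -/
def prodIm (f : A →ₐ[K] C) (g : B →ₐ[K] C) (a : A) (b : B) : C := f a * g b

/-- The image under `h` of the product of the images of `a` and `b`. -/
def pushIm (f : A →ₐ[K] C) (g : B →ₐ[K] C) (h : C →ₗ[K] E) (a : A) (b : B) : E := h (f a * g b)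

end Alg

open Pool.Agent.H914 Pool.Agent.H914.VarClass Pool.Agent.H914.VarClass.Obj
  Pool.Agent.H914.WeilCohomology Pool.Agent.Y121.AHS

variable {k : Type u} [Field k] {𝒱 : VarClass k} {ops : CycleOps 𝒱} {T : HodgeTheory ops}

/-- `c` is the external product of absolutely Hodge classes on `Z` and `X` of degrees `2 i` and
`2 j` with `i + j = p`. -/
def IsExternal (D : Conjugates T) (Z X : 𝒱.Obj) (p : ℕ) (c : T.W.H (Z.prod X)) : Prop :=
  ∃ i j a b, i + j = p ∧ IsAbsHodge D Z i a ∧ IsAbsHodge D X j b ∧
    prodIm (T.W.map (fst Z X)) (T.W.map (snd Z X)) a b = c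

/-- `c` is the composition of absolutely Hodge correspondences from `Z` to `Y` and from `Y` to `X`:
the direct image, under the projection of `Z × Y × X` to `Z × X`, of the product of the inverse
images of absolutely Hodge classes on `Z × Y` and on `Y × X` of degrees `2 i` and `2 j`, where
`i + j - dim Y = p`. -/
def IsComposition (D : Conjugates T) (Z Y X : 𝒱.Obj) (p : ℕ) (c : T.W.H (Z.prod X)) : Prop :=
  ∃ i j a b, i + j = p + Y.dim ∧ IsAbsHodge D (Z.prod Y) i a ∧ IsAbsHodge D (Y.prod X) j b ∧
    pushIm (T.W.map (p12 Z Y X)) (T.W.map (p23 Z Y X)) (T.W.push (p13 Z Y X)) a b = c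

/-- All absolutely Hodge classes on `X` are linear combinations of classes of algebraic cycles. -/
def AbsAlgebraic (D : Conjugates T) (X : 𝒱.Obj) : Prop :=
  ∀ j c, IsAbsHodge D X j c → IsComb T.W.K (fun c => ∃ z, X.IsCyc j z ∧ T.W.cl X z = c) c

/-- The absolutely Hodge classes on `Z × X` are linear combinations of external products of
absolutely Hodge classes on `Z` and on `X` and of compositions of absolutely Hodge correspondences
from `Z` to a member `Y` of the list `L` and from `Y` to `X`. -/
def FactorsThrough (D : Conjugates T) (Z X : 𝒱.Obj) (L : List 𝒱.Obj) : Prop :=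
  ∀ p c, IsAbsHodge D (Z.prod X) p c →
    IsComb T.W.K (fun c => IsExternal D Z X p c ∨ ∃ Y ∈ L, IsComposition D Z Y X p c) c

/-- The dimension of the space of the classes on `Z` which are orthogonal to all absolutely Hodge
classes. -/
noncomputable def transDim (D : Conjugates T) (Z : 𝒱.Obj) : ℕ :=
  orthDim (T.W.tr Z) fun a => ∃ j, IsAbsHodge D Z j a

/-- The members `Y` of the list `L` are test members of the family `F` for the variety `Z`.

* All absolutely Hodge classes on `Z × X`, `X` in `F`, factor through the members of `L`.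
* If all absolutely Hodge classes on the varieties `Z`, `X`, `Z × Y` and `Y × X`, `Y` in `L`, are
  algebraic then the same is true for `Z × X`.
* In particular, if all absolutely Hodge classes on `Z`, on `X` and on `Y × X`, for all `X` in `F`
  and `Y` in `L`, are algebraic, then they are algebraic on `Z × X` for all `X` in `F` if and only
  if they are algebraic on `Z × Y` for all `Y` in `L`. -/
structure Tests (D : Conjugates T) (Z : 𝒱.Obj) (F : Set 𝒱.Obj) (L : List 𝒱.Obj) : Prop where
  mem : ∀ Y ∈ L, Y ∈ F
  factors : ∀ X ∈ F, FactorsThrough D Z X L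
  algebraic : ∀ X ∈ F, AbsAlgebraic D Z → AbsAlgebraic D X →
    (∀ Y ∈ L, AbsAlgebraic D (Z.prod Y) ∧ AbsAlgebraic D (Y.prod X)) →
    AbsAlgebraic D (Z.prod X)
  family : AbsAlgebraic D Z → (∀ X ∈ F, AbsAlgebraic D X ∧ ∀ Y ∈ L, AbsAlgebraic D (Y.prod X)) →
    ((∀ X ∈ F, AbsAlgebraic D (Z.prod X)) ↔ ∀ Y ∈ L, AbsAlgebraic D (Z.prod Y))

end Pool.Agent.J4.H21.TS
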