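import Pool.Agent.J4.H21.TS.Core
import Pool.Agent.J4.H21.TS.Defs
import Pool.Agent.Y121.AH.HR
import Pool.Agent.Y121.AHS.Conv

/-!
# Test members for the absolutely Hodge classes
-/

set_option autoImplicit false

open CategoryTheory AlgebraicGeometry

universe u v

namespace Pool.Agent.J4.H21.TS

open Module
open Pool.Agent.H914 Pool.Agent.H914.VarClass Pool.Agent.H914.VarClass.Obj
  Pool.Agent.H914.WeilCohomology Pool.Agent.Y133.Half Pool.Agent.W458.MF Pool.Agent.W536.RR
  Pool.Agent.H281R3.HT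
open Pool.Agent.Y121

section Pred

variable {k : Type u} [Field k] {𝒱 : VarClass k} {ops : CycleOps 𝒱}
  {W : WeilCohomology.{u, v} ops} {Q : ClassPred W} {Z T Y : 𝒱.Obj}

/-- The products and compositions of the right degrees. -/
def hgens (Q : ClassPred W) (Z T : 𝒱.Obj) (L : List 𝒱.Obj) (p : ℕ) : Set (W.H (Z.prod T)) :=
  {c | (∃ i j a b, i + j = p ∧ Q.P Z i a ∧ Q.P T j b ∧ c = xp W a b) ∨
    ∃ Y ∈ L, ∃ i j a b, i + j = p + Y.dim ∧ Q.P (Z.prod Y) i a ∧ Q.P (Y.prod T) j b ∧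
      c = cmp W a b}

lemma cmp_add_left (a a' : W.H (Z.prod Y)) (b : W.H (Y.prod T)) :
    cmp W (a + a') b = cmp W a b + cmp W a' b := by
  rw [cmp, map_add, add_mul, map_add]; rfl

lemma cmp_add_right (a : W.H (Z.prod Y)) (b b' : W.H (Y.prod T)) :
    cmp W a (b + b') = cmp W a b + cmp W a b' := by
  rw [cmp, map_add, mul_add, map_add]; rfl

lemma cmp_zero_left (b : W.H (Y.prod T)) : cmp W (0 : W.H (Z.prod Y)) b = 0 := by
  rw [cmp, map_zero, zero_mul, map_zero]

lemma cmp_zero_right (a : W.H (Z.prod Y)) : cmp W a (0 : W.H (Y.prod T)) = 0 := by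
  rw [cmp, map_zero, mul_zero, map_zero]

lemma proj_gens {L : List 𝒱.Obj} {c : W.H (Z.prod T)} (hc : c ∈ gens Q.sys Z T L) (p : ℕ) :
    H914.proj (W.isInternal _) (2 * p) c ∈ Submodule.span W.K (hgens Q Z T L p) := by
  rcases hc with ⟨a, ha, b, hb, rfl⟩ | ⟨Y, hY, a, ha, b, hb, rfl⟩
  · refine ClassPred.sp_ind (Q := Q) (q := fun a => H914.proj (W.isInternal _) (2 * p)
      (xp W a b) ∈ Submodule.span W.K (hgens Q Z T L p)) ?_ ?_ ?_ ha
    · intro i a ha
      refine ClassPred.sp_ind (Q := Q) (q := fun b => H914.proj (W.isInternal _) (2 * p)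
        (xp W a b) ∈ Submodule.span W.K (hgens Q Z T L p)) ?_ ?_ ?_ hb
      · intro j b hb
        have h1 : xp W a b ∈ W.gr (Z.prod T) (2 * (i + j)) := by
          rw [mul_add]
          exact W.mul_mem (W.map_mem _ (Q.gr ha)) (W.map_mem _ (Q.gr hb))
        by_cases hij : i + j = p
        · subst hij
          rw [proj_same _ h1]
          exact Submodule.subset_span (Or.inl ⟨i, j, a, b, rfl, ha, hb, rfl⟩)
        · rw [proj_ne _ h1 (by omega)]
          exact Submodule.zero_mem _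
      · rw [xp, map_zero, mul_zero, map_zero]; exact Submodule.zero_mem _
      · intro x y hx hy; rw [xp_add_right, map_add]; exact Submodule.add_mem _ hx hy
    · rw [xp, map_zero, zero_mul, map_zero]; exact Submodule.zero_mem _
    · intro x y hx hy; rw [xp_add_left, map_add]; exact Submodule.add_mem _ hx hy
  · refine ClassPred.sp_ind (Q := Q) (q := fun a => H914.proj (W.isInternal _) (2 * p)
      (cmp W a b) ∈ Submodule.span W.K (hgens Q Z T L p)) ?_ ?_ ?_ ha
    · intro i a ha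
      refine ClassPred.sp_ind (Q := Q) (q := fun b => H914.proj (W.isInternal _) (2 * p)
        (cmp W a b) ∈ Submodule.span W.K (hgens Q Z T L p)) ?_ ?_ ?_ hb
      · intro j b hb
        have h1 := Q.mul (Q.map (p12 Z Y T) ha) (Q.map (p23 Z Y T) hb)
        have hd : (Z.prod (Y.prod T)).dim = Z.dim + (Y.dim + T.dim) := rfl
        have hd' : (Z.prod T).dim = Z.dim + T.dim := rfl
        by_cases hij : i + j = p + Y.dim
        · have h2 : Q.P (Z.prod T) p (cmp W a b) := Q.push _ (by omega) h1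
          rw [proj_same _ (Q.gr h2)]
          exact Submodule.subset_span (Or.inr ⟨Y, hY, i, j, a, b, hij, ha, hb, rfl⟩)
        · by_cases hle : Y.dim ≤ i + j
          · have h2 : Q.P (Z.prod T) (i + j - Y.dim) (cmp W a b) := Q.push _ (by omega) h1
            rw [proj_ne _ (Q.gr h2) (by omega)]
            exact Submodule.zero_mem _
          · have h2 := W.push_mem (p13 Z Y T) (Q.gr h1)
            rw [grZ_of_neg (by push_cast [hd, hd']; omega), Submodule.mem_bot] at h2
            rw [cmp, h2, map_zero]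
            exact Submodule.zero_mem _
      · rw [cmp_zero_right, map_zero]; exact Submodule.zero_mem _
      · intro x y hx hy; rw [cmp_add_right, map_add]; exact Submodule.add_mem _ hx hy
    · rw [cmp_zero_left, map_zero]; exact Submodule.zero_mem _
    · intro x y hx hy; rw [cmp_add_left, map_add]; exact Submodule.add_mem _ hx hy

/-- Homogeneous classes are combinations of homogeneous generators. -/
lemma mem_hgens {L : List 𝒱.Obj}
    (h : Q.sys.C (Z.prod T) ≤ Submodule.span W.K (gens Q.sys Z T L)) {p : ℕ}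
    {c : W.H (Z.prod T)} (hc : Q.P _ p c) : c ∈ Submodule.span W.K (hgens Q Z T L p) := by
  have key : ∀ x ∈ Submodule.span W.K (gens Q.sys Z T L),
      H914.proj (W.isInternal _) (2 * p) x ∈ Submodule.span W.K (hgens Q Z T L p) := by
    intro x hx
    induction hx using Submodule.span_induction with
    | mem x hx => exact proj_gens hx p
    | zero => rw [map_zero]; exact Submodule.zero_mem _
    | add x y _ _ hx hy => rw [map_add]; exact Submodule.add_mem _ hx hy
    | smul r x _ hx => rw [map_smul]; exact Submodule.smul_mem _ _ hx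
  have h1 := key c (h (ClassPred.sp_of hc))
  rwa [proj_same _ (Q.gr hc)] at h1

/-- All classes with the property are algebraic. -/
def QA (Q : ClassPred W) (X : 𝒱.Obj) : Prop := ∀ j c, Q.P X j c → c ∈ spanCycles W X j

lemma cmp_alg {a : W.H (Z.prod Y)} (ha : a ∈ algSpan W _) {b : W.H (Y.prod T)}
    (hb : b ∈ algSpan W _) : cmp W a b ∈ algSpan W (Z.prod T) :=
  algSpan_push _ (algSpan_mul (algSpan_map _ ha) (algSpan_map _ hb))

lemma qa_of {L : List 𝒱.Obj}
    (h : ∀ p c, Q.P (Z.prod T) p c → c ∈ Submodule.span W.K (hgens Q Z T L p)) (hZ : QA Q Z)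
    (hT : QA Q T) (hL : ∀ Y ∈ L, QA Q (Z.prod Y) ∧ QA Q (Y.prod T)) : QA Q (Z.prod T) := by
  intro p c hc
  refine spanCycles_of_algSpan ?_ (Q.gr hc)
  have h1 : Submodule.span W.K (hgens Q Z T L p) ≤ algSpan W (Z.prod T) := by
    refine Submodule.span_le.2 ?_
    rintro _ (⟨i, j, a, b, -, ha, hb, rfl⟩ | ⟨Y, hY, i, j, a, b, -, ha, hb, rfl⟩)
    · exact algSpan_mul (algSpan_map _ (Pool.Agent.Y129.span_le_algSpan i (hZ i a ha)))
        (algSpan_map _ (Pool.Agent.Y129.span_le_algSpan j (hT j b hb)))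
    · exact cmp_alg (Pool.Agent.Y129.span_le_algSpan i ((hL Y hY).1 i a ha))
        (Pool.Agent.Y129.span_le_algSpan j ((hL Y hY).2 j b hb))
  exact h1 (h p c hc)

end Pred

section Abs

variable {k : Type u} [Field k] {𝒱 : VarClass k} {ops : CycleOps 𝒱} {T : AHS.HodgeTheory ops}
  {D : AHS.Conjugates T}

/-- The class of the absolutely Hodge classes. -/
noncomputable def aPred (D : AHS.Conjugates T) : ClassPred T.W := AH.absPred (AHS.toD D)

lemma aNondeg (D : AHS.Conjugates T) (X : 𝒱.Obj) : Sys.Nondeg (aPred D).sys X := by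
  have key : ∀ x : (AHS.toH T).W.H X, x ∈ (AH.absSys (AHS.toD D)).Num X → x = 0 := by
    intro x h1
    rw [AH.abs_num] at h1
    exact (Submodule.mem_bot _).1 h1
  intro x hx h
  exact key x ⟨hx, h⟩

lemma kr_nil (Z : 𝒱.Obj) : finrank T.W.K (kr (aPred D).sys Z []) ≤ transDim D Z := by
  refine Submodule.finrank_mono fun x hx => ?_
  simp only [Submodule.mem_iInf, LinearMap.mem_ker]
  rintro a ⟨j, ha⟩
  exact hx.1 a (ClassPred.sp_of (Q := aPred D) ha)

lemma absAlg_iff {X : 𝒱.Obj} : AbsAlgebraic D X ↔ QA (aPred D) X := by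
  have h : ∀ j : ℕ, Submodule.span T.W.K {c | ∃ z, X.IsCyc j z ∧ T.W.cl X z = c} =
      spanCycles T.W X j := by
    intro j
    rw [spanCycles]
    congr 1
    ext c
    constructor
    · rintro ⟨z, hz, h⟩
      exact ⟨j, rfl, z, hz, h⟩
    · rintro ⟨p, hp, z, hz, h⟩
      obtain rfl : p = j := by exact_mod_cast hp
      exact ⟨z, hz, h⟩
  refine forall_congr' fun j => forall_congr' fun c => forall_congr' fun _ => ?_
  rw [← h]
  rfl

lemma tests_of {Z : 𝒱.Obj} {F : Set 𝒱.Obj} {L : List 𝒱.Obj} (hL : ∀ Y ∈ L, Y ∈ F)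
    (h : ∀ X ∈ F, ∀ f ∈ (aPred D).sys.Op Z X, ∀ x ∈ kr (aPred D).sys Z L, f x = 0) :
    Tests D Z F L := by
  have h0 : ∀ X p, Submodule.span T.W.K (hgens (aPred D) Z X L p) ≤ Submodule.span T.W.K
      {c | IsExternal D Z X p c ∨ ∃ Y ∈ L, IsComposition D Z Y X p c} := by
    intro X p
    refine Submodule.span_mono ?_
    rintro _ (⟨i, j, a, b, h1, h2, h3, rfl⟩ | ⟨Y, hY, i, j, a, b, h1, h2, h3, rfl⟩)
    · exact Or.inl ⟨i, j, a, b, h1, h2, h3, rfl⟩
    · exact Or.inr ⟨Y, hY, i, j, a, b, h1, h2, h3, rfl⟩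
  have h1 : ∀ X ∈ F, ∀ p c, (aPred D).P (Z.prod X) p c →
      c ∈ Submodule.span T.W.K (hgens (aPred D) Z X L p) := fun X hX p c hc =>
    mem_hgens (span_gens (aNondeg D) (h X hX)) hc
  have h2 : ∀ X ∈ F, AbsAlgebraic D Z → AbsAlgebraic D X →
      (∀ Y ∈ L, AbsAlgebraic D (Z.prod Y) ∧ AbsAlgebraic D (Y.prod X)) →
      AbsAlgebraic D (Z.prod X) := fun X hX hZ hX' hL' => absAlg_iff.2
    (qa_of (h1 X hX) (absAlg_iff.1 hZ) (absAlg_iff.1 hX') fun Y hY =>
      ⟨absAlg_iff.1 (hL' Y hY).1, absAlg_iff.1 (hL' Y hY).2⟩)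
  exact ⟨hL, fun X hX p c hc => h0 X p (h1 X hX p c hc), h2, fun hZ hF =>
    ⟨fun h Y hY => h Y (hL Y hY), fun h X hX => h2 X hX hZ (hF X hX).1 fun Y hY =>
      ⟨h Y hY, (hF X hX).2 Y hY⟩⟩⟩

/-- **Test members.** -/
theorem main (D : AHS.Conjugates T) (Z : 𝒱.Obj) (F : Set 𝒱.Obj) :
    (∃ L : List 𝒱.Obj, L.length ≤ transDim D Z ∧ Tests D Z F L) ∧
    (F.Nonempty → (∀ A ∈ F, ∀ B ∈ F, A.prod B ∈ F) → ∃ Y, Tests D Z F [Y]) := by
  constructor
  · obtain ⟨L, hL, hlen, h⟩ := exists_list (aPred D).sys Z F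
    exact ⟨L, hlen.trans (kr_nil Z), tests_of hL h⟩
  · intro hne hF
    obtain ⟨Y, hY, h⟩ := exists_single (aPred D).sys Z F hne hF
    exact ⟨Y, tests_of (fun Y' hY' => by rw [List.mem_singleton.1 hY']; exact hY) h⟩

end Abs

end Pool.Agent.J4.H21.TS
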